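import Pool.Agent.NH98.TG.Seg
import Pool.Agent.NH98.TG.Coc
import Pool.Agent.NH98.TG.Red
import Pool.Agent.NH98.TG.Emb
import Pool.Agent.NH98.TG.Tr
import Pool.Agent.NH98.TG.Graph
import Pool.Agent.NH98.TG.Lt
import Pool.Agent.NH98.TG.Mm
import Pool.Agent.NH98.TG.Del
import Pool.Agent.NH98.TG.Step
import Pool.Agent.NH98.TG.LenV
import Pool.Agent.NH98.TG.Sol
import Pool.Agent.NH98.TG.Main
import Pool.Agent.NH98.TG.Curve

/-!
# The A-theoretic Farrell–Jones conjecture for `GL₂` of affine curves with one point at infinity

`C` is any class of groups with the closure properties `ClosedE C` which contains the solvable groups.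
All this is published for the class of the groups which satisfy the Farrell–Jones conjecture for
A-theory with coefficients and finite wreath products (Enkelmann, Lück, Pieper, Ullmann, Winges;
Kasprowski, Ullmann, Wegner, Winges), and the groups in this class satisfy the conjecture of
MP_63c928_gt.

Let `A` be a Noetherian domain over a field `K`, contained in a field with a discrete valuation `v`
such that for each `n` the elements of `A` with `v ≥ -n` are in a finite-dimensional space, for instance
the coordinate ring of an affine curve over `K` with one point at infinity. If `GL₂(A/I)` is in `C` for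
one proper ideal `I`, then `GL₂(A)` is in `C`. For instance `I` may be a maximal ideal, `K` being a
number field or the field of all algebraic numbers.

Outline of the proof. `GL₂(A)` acts on the tree of `GL₂(F)`, and the matrices which fix a vertex have
entries of bounded pole order. By Krull's intersection theorem and the finite dimension there is for
each `n` a power `J` of `I` which contains no `a ≠ 0` with `v(a) ≥ -n`. The kernel of
`GL₂(A/J) → GL₂(A/I)` is nilpotent, so that `GL₂(A/J)` is in `C`, and the theorem on groups acting on
trees with locally detected stabilizers applies (TreeActions).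
-/

set_option autoImplicit false

namespace Pool.Agent.Results.MP_63c928_gt.OnePlaceRings

open Pool.Agent.Y110.FJ Pool.Agent.NH98.TG

theorem result (C : ∀ (G : Type) [Group G], Prop) (hC : ClosedE C)
    (hsol : ∀ (S : Type) [Group S], Group.IsSolvable S → C S)
    (K A F : Type) [Field K] [CommRing A] [IsDomain A] [IsNoetherianRing A] [Algebra K A] [Field F]
    (ι : A →+* F) (hι : Function.Injective ι) (v : F → ℤ) (hv : Disc v)
    (hfin : ∀ n : ℕ, ∃ W : Submodule K A, Module.Finite K W ∧
      ∀ a : A, ge v (-(n : ℤ)) (ι a) → a ∈ W)
    (I : Ideal A) (hI : I ≠ ⊤) (hAI : C (GL (Fin 2) (A ⧸ I))) : C (GL (Fin 2) A) := by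
  have htr : S_TR := t_tr t_seg (t_emb t_coc t_eqv t_red)
  have hdel : S_DEL := t_del t_ge t_mm
  have hmain : S_MAIN := t_main t_ge t_mm hdel
    (t_len hdel (t_step t_ge t_mm hdel) (t_uni t_ge t_mm hdel)) (t_bd t_ge t_mm hdel) t_lt htr
  have hpow : S_POW := t_pow (t_sq t_sol)
  exact t_curve hpow hmain C hC hsol K A F ι hι v hv hfin I hI hAI

end Pool.Agent.Results.MP_63c928_gt.OnePlaceRings
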