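import Pool.Agent.NH98.TG.Seg
import Pool.Agent.NH98.TG.Coc
import Pool.Agent.NH98.TG.Red
import Pool.Agent.NH98.TG.Emb
import Pool.Agent.NH98.TG.Tr
import Pool.Agent.NH98.TG.Graph
import Pool.Agent.NH98.TG.Lt
import Pool.Agent.NH98.TG.Mm
import Pool.Agent.NH98.TG.Del
import Pool.Agent.NH98.TG.Step
import Pool.Agent.NH98.TG.LenV
import Pool.Agent.NH98.TG.Sol
import Pool.Agent.NH98.TG.Main
import Pool.Agent.NH98.TG.Poly
import Pool.Agent.NH98.TG.Mv

/-!
# The A-theoretic Farrell–Jones conjecture for `GL₂` of polynomial rings over domains

`C` is any class of groups with the closure properties `ClosedE C` which contains the solvable groups.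
All this is published for the class of the groups which satisfy the Farrell–Jones conjecture for
A-theory with coefficients and finite wreath products (Enkelmann, Lück, Pieper, Ullmann, Winges;
Kasprowski, Ullmann, Wegner, Winges), and the groups in this class satisfy the conjecture of
MP_63c928_gt.

Let `R` be a domain. If `GL₂(R)` is in `C` then `GL₂(R[tᵢ, i in I])` is in `C`, for every set `I` of
variables. For instance `R` may be the ring of the integers, or of the `S`-integers of a number field,
or the field of all algebraic numbers (S-arithmetic groups are in the class).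

Outline of the proof. For one variable `GL₂(R[t])` acts on the tree of `GL₂(K(t))` for the valuation
`-deg`, `K` the field of fractions of `R`. The matrices which fix a vertex have entries of bounded
degree, so that the reduction modulo `tⁿ` is injective on the stabilizers of finitely many vertices,
for `n` large; and the kernel of `GL₂(R[t]/(tⁿ)) → GL₂(R)` is nilpotent, so that `GL₂(R[t]/(tⁿ))` is in
`C`. Hence the theorem on groups acting on trees with locally detected stabilizers applies
(TreeActions). Infinitely many variables are reached by directed colimits.
-/

set_option autoImplicit false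

namespace Pool.Agent.Results.MP_63c928_gt.PolynomialRings

open Pool.Agent.Y110.FJ Pool.Agent.NH98.TG

theorem result (C : ∀ (G : Type) [Group G], Prop) (hC : ClosedE C)
    (hsol : ∀ (S : Type) [Group S], Group.IsSolvable S → C S)
    (I R : Type) [CommRing R] [IsDomain R] (hR : C (GL (Fin 2) R)) :
    C (GL (Fin 2) (MvPolynomial I R)) := by
  have htr : S_TR := t_tr t_seg (t_emb t_coc t_eqv t_red)
  have hdel : S_DEL := t_del t_ge t_mm
  have hmain : S_MAIN := t_main t_ge t_mm hdel
    (t_len hdel (t_step t_ge t_mm hdel) (t_uni t_ge t_mm hdel)) (t_bd t_ge t_mm hdel) t_lt htr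
  have hpow : S_POW := t_pow (t_sq t_sol)
  exact t_mv (t_poly hpow hmain) C hC hsol I R hR

end Pool.Agent.Results.MP_63c928_gt.PolynomialRings
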