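import Pool.Agent.NH98.IL.Nu
import Pool.Agent.NH98.IL.Key
import Pool.Agent.NH98.IL.A
import Pool.Agent.NH98.IL.B
import Pool.Agent.NH98.IL.Ti
import Pool.Agent.NH98.IL.Lu
import Pool.Agent.NH98.IL.Reg

/-!
# The A-theoretic Farrell–Jones conjecture for general linear groups of von Neumann regular rings

`C` is any class of groups with the closure properties `ClosedE C`, all of which are published for
the class of the groups which satisfy the Farrell–Jones conjecture for A-theory with coefficients and
finite wreath products. Rings are not commutative. A ring `S` is good (`InR C S`) if all the groups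
`GL_n(S)` are in `C`; for instance the integers, and all fields which are algebraic over `ℚ` or over
`𝔽_p(t)`, are good (S-arithmetic groups are in the class).

(1) Let `I` be a two-sided ideal of `S` with local units: every finite subset of `I` is contained in
`eSe` for an idempotent `e` in `I`; and let all rings `eSe`, `e` in `I` idempotent, be good. Let `G` be
a group with a homomorphism to `GL_n(S)` and `N` a normal subgroup of `G` on which it is injective and
takes values which are congruent to `1` modulo `I`. If `G/N` is in `C` then `G` is in `C`.

(2) If `SeS` has local units, and the rings `eSe` and `S/SeS` are good, then `S` is good. For instance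
`S` may be the Jacobson (Toeplitz) algebra `K⟨x, y | xy = 1⟩`, with `K` algebraic over a finite field
and `e = 1 - yx`.

(3) Let `S` be von Neumann regular. If every nonzero factor ring `S'` of `S` has an idempotent `e ≠ 0`
such that `eS'e` is good then `S` is good. For instance `S` may be a semiartinian regular ring with
good division rings.

Outline of the proof. (1) Let `g` be in `G` and let `E` be a finite subset of `N`. There is an
idempotent `e` in `I` such that `x - 1` has entries in `eSe` for `x` in `E`, and an idempotent `f` in
`I` such that `e`, `ge`, `eg⁻¹` have entries in `fSf`. Put `a = ge`, `b = eg⁻¹`, so that `ba = e`. Then the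
matrix with the rows `(a, 1 - ab)`, `(1 - e, b)` is in `GL_{2n}(fSf)` and the conjugation by it is the
conjugation by `g` on `E`. So the realization criterion of the starting files applies. (2) follows,
since for an idempotent `f` in `SeS` the ring `fSf` embeds in a matrix ring over `eSe`. (3) The ideals
of a regular ring have local units. By Zorn's lemma there is a maximal ideal `M` such that `fSf` is
good for all idempotents `f` in `M`, and (2) is applied to `f(S/M)f`.
-/

set_option autoImplicit false

namespace Pool.Agent.Results.MP_63c928_gt.RegularRings

open Pool.Agent.Y110.FJ Pool.Agent.NH98.IL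

theorem result (C : ∀ (G : Type) [Group G], Prop) (hC : ClosedE C) :
    -- (1) normal subgroups congruent to `1` modulo an ideal with local units
    (∀ (S : Type) [Ring S] (I : Ideal S) [I.IsTwoSided], LocUnits (I : Set S) →
      (∀ (e : S) (he : IsIdempotentElem e), e ∈ I → InR C he.Corner) →
      ∀ (G : Type) [Group G] (n : ℕ) (ρ : G →* GLr n S) (N : Subgroup G) [N.Normal],
        (∀ x ∈ N, ρ x = 1 → x = 1) →
        (∀ x ∈ N, ∀ i j, ((ρ x : Matrix (Fin n) (Fin n) S) - 1) i j ∈ I) → C (G ⧸ N) → C G) ∧
    -- (2) an idempotent `e` such that `SeS`, the kernel of `φ`, has local units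
    (∀ (S S' : Type) [Ring S] [Ring S'] (φ : S →+* S') (e : S) (he : IsIdempotentElem e),
      (∀ x, φ x = 0 ↔ ∃ (k : ℕ) (a b : Fin k → S), x = ∑ i, a i * e * b i) →
      LocUnits {x | φ x = 0} → InR C he.Corner → InR C S' → InR C S) ∧
    -- (3) von Neumann regular rings
    (∀ (S : Type) [Ring S], (∀ a : S, ∃ x, a * x * a = a) →
      (∀ (S' : Type) [Ring S'] [Nontrivial S'] (φ : S →+* S'), Function.Surjective φ →
        ∃ (e : S') (he : IsIdempotentElem e), e ≠ 0 ∧ InR C he.Corner) → InR C S) := by
  have ha : S_A := t_a t_key
  have hb : S_B := t_b ha
  have hti : S_TI := t_ti t_nu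
  exact ⟨ha C hC, t_d hb hti C hC, t_reg t_nu hb hti t_lu C hC⟩

end Pool.Agent.Results.MP_63c928_gt.RegularRings
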