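import Pool.Agent.NH98.TG.Seg
import Pool.Agent.NH98.TG.Coc
import Pool.Agent.NH98.TG.Red
import Pool.Agent.NH98.TG.Emb
import Pool.Agent.NH98.TG.Tr
import Pool.Agent.NH98.TG.Graph

/-!
# The A-theoretic Farrell–Jones conjecture: groups acting on trees with locally detected stabilizers

`C` is any class of groups with the closure properties `ClosedE C`. All this is published for the class
of the groups which satisfy the Farrell–Jones conjecture for A-theory with coefficients and finite
wreath products (Enkelmann, Lück, Pieper, Ullmann, Winges), and the groups in this class satisfy the
conjecture of MP_63c928_gt.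

Let `G` act on a tree without inversions. Suppose that for each finite set of vertices there is a
homomorphism from `G` to a group in `C` which is injective on the stabilizers of these vertices. Then
`G` is in `C`.

Outline of the proof. One may assume that `G` is finitely generated, and then there is one
homomorphism `f` to a group in `C` which is injective on the stabilizers of all vertices of an
invariant subtree. Let `N` be its kernel and let `X` be the set of the `N`-orbits of oriented edges of
the tree. The geodesic from a base point `v₀` to `g v₀` gives an element of the free group `F(X)`, and
in this way `G` embeds in `F(X) ⋊ (G/N)`, which is in `C` by a theorem of the starting files.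
-/

set_option autoImplicit false

namespace Pool.Agent.Results.MP_63c928_gt.TreeActions

open Pool.Agent.Y110.FJ Pool.Agent.NH98.TG

theorem result (C : ∀ (G : Type) [Group G], Prop) (hC : ClosedE C)
    (V : Type) (T : SimpleGraph V) (hT : T.IsTree) (G : Type) [Group G] [MulAction G V]
    (hadj : ∀ (g : G) a b, T.Adj a b → T.Adj (g • a) (g • b))
    (hinv : ∀ (g : G) a b, T.Adj a b → g • a = b → g • b ≠ a)
    (hdet : ∀ E : Set V, E.Finite → ∃ (P : Type) (_ : Group P) (f : G →* P), C P ∧
      ∀ v ∈ E, ∀ g : G, g • v = v → f g = 1 → g = 1) : C G := by
  have htr : S_TR := t_tr t_seg (t_emb t_coc t_eqv t_red)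
  exact t_trg htr C hC V T hT G hadj hinv hdet

end Pool.Agent.Results.MP_63c928_gt.TreeActions
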